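import Mathlib

set_option autoImplicit false
set_option maxHeartbeats 400000

namespace Pool.Agent.Results.MP_f02465_al.StepsBound

def letter (h : Fin 2 × Bool) : FreeGroup (Fin 2) :=
  if h.2 then FreeGroup.of h.1 else (FreeGroup.of h.1)⁻¹

def edges (H : Subgroup (FreeGroup (Fin 2))) (y : FreeGroup (Fin 2)) :
    ℕ → Set ((FreeGroup (Fin 2) ⧸ H) × (Fin 2 × Bool))
  | 0 => {e | e.1 = (y : FreeGroup (Fin 2) ⧸ H)}
  | i + 1 => {e | (∃ f ∈ edges H y i, letter f.2 • f.1 = e.1) ∧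
      ¬ ∃ f ∈ edges H y i, f.1 = letter e.2 • e.1 ∧ letter f.2 • f.1 = e.1}

def bar (h : Fin 2 × Bool) : Fin 2 × Bool := (h.1, !h.2)

lemma letter_bar (h : Fin 2 × Bool) : letter (bar h) = (letter h)⁻¹ := by
  rcases h with ⟨a, _ | _⟩ <;> simp [letter, bar]

section
variable {H : Subgroup (FreeGroup (Fin 2))}

lemma bar_smul (h : Fin 2 × Bool) (v : FreeGroup (Fin 2) ⧸ H) :
    letter (bar h) • letter h • v = v := by
  rw [letter_bar, inv_smul_smul]

def W (H : Subgroup (FreeGroup (Fin 2))) (y : FreeGroup (Fin 2)) :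
    ℕ → Set (FreeGroup (Fin 2) ⧸ H)
  | 0 => ∅
  | 1 => {(y : FreeGroup (Fin 2) ⧸ H)}
  | i + 2 => {s | ∃ t ∈ W H y (i + 1), ∃ h, letter h • t = s}

variable (y : FreeGroup (Fin 2))

lemma step {i : ℕ} {t : FreeGroup (Fin 2) ⧸ H} (ht : t ∈ W H y i) (h : Fin 2 × Bool) (hi : 1 ≤ i) :
    letter h • t ∈ W H y (i + 1) := by
  obtain ⟨j, rfl⟩ := Nat.exists_eq_add_of_le' hi
  exact ⟨t, ht, h, rfl⟩

lemma step' {i : ℕ} {t : FreeGroup (Fin 2) ⧸ H} (ht : t ∈ W H y i) (h : Fin 2 × Bool) :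
    letter h • t ∈ W H y (i + 1) := by
  rcases i with _ | i
  · exact absurd ht (by simp [W])
  · exact step y ht h (by omega)

lemma mono (i : ℕ) : W H y i ⊆ W H y (i + 2) := by
  intro t ht
  have := step' y (step' y ht (0, true)) (bar (0, true))
  rwa [bar_smul] at this

lemma edges_eq (i : ℕ) : edges H y i =
    {e | e.1 ∈ W H y (i + 1) ∧ letter e.2 • e.1 ∉ W H y i} := by
  induction i with
  | zero => ext e; simp [edges, W]
  | succ i ih =>
    ext ⟨t, h⟩
    simp only [edges, ih, Set.mem_ofPred_eq]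
    constructor
    · rintro ⟨⟨⟨s, g⟩, ⟨hs, hs'⟩, rfl⟩, hn⟩
      refine ⟨step' y hs g, fun hc => hn ⟨(letter h • letter g • s, bar h), ⟨hc, ?_⟩, rfl, ?_⟩⟩
      · simpa [bar_smul] using hs'
      · simp [bar_smul]
    · rintro ⟨⟨s, hs, g, rfl⟩, hn⟩
      refine ⟨⟨(s, g), ⟨hs, fun hc => hn (step' y hc h)⟩, rfl⟩, ?_⟩
      rintro ⟨⟨s', g'⟩, ⟨h1, -⟩, h2, -⟩
      exact hn (h2 ▸ h1)

lemma grow_prev {i : ℕ} (h : W H y (i + 2) ⊆ W H y i) : W H y (i + 3) ⊆ W H y (i + 1) := by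
  rintro s ⟨t, ht, g, rfl⟩
  exact step' y (h ht) g

variable [Finite (FreeGroup (Fin 2) ⧸ H)]

lemma two_le {i : ℕ} (h : ¬ W H y (i + 3) ⊆ W H y (i + 1)) :
    (W H y i).ncard + 2 ≤ (W H y (i + 2)).ncard := by
  have inj : ∀ g : Fin 2 × Bool,
      Function.Injective (fun v : FreeGroup (Fin 2) ⧸ H => letter g • v) :=
    fun g => MulAction.injective _
  have im : ∀ (g : Fin 2 × Bool) (j : ℕ),
      (fun v : FreeGroup (Fin 2) ⧸ H => letter g • v) '' W H y j ⊆ W H y (j + 1) := by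
    rintro g j _ ⟨t, ht, rfl⟩
    exact step' y ht g
  have key : ∀ j, (W H y (j + 1)).ncard ≤ (W H y j).ncard → W H y (j + 2) ⊆ W H y j := by
    rintro j hj _ ⟨t, ht, g, rfl⟩
    have e := Set.eq_of_subset_of_ncard_le (im (bar g) j)
      (by rwa [Set.ncard_image_of_injective _ (inj _)])
    rw [← e] at ht
    obtain ⟨u, hu, rfl⟩ := ht
    have : letter g • letter (bar g) • u = u := by rw [letter_bar, smul_inv_smul]
    simpa [this] using hu
  have h1 : (W H y (i + 1)).ncard < (W H y (i + 2)).ncard := by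
    by_contra hc
    exact h (key (i + 1) (not_lt.1 hc))
  have h2 : (W H y i).ncard < (W H y (i + 1)).ncard := by
    by_contra hc
    exact h (grow_prev y (key i (by omega)))
  omega

lemma count (i : ℕ) (h : ¬ W H y (i + 2) ⊆ W H y i) :
    2 * i + 1 ≤ (W H y (i + 1)).ncard + (W H y i).ncard := by
  induction i with
  | zero => simp [W]
  | succ i ih =>
    have := two_le y h
    have := ih (fun hc => h (grow_prev y hc))
    change 2 * (i + 1) + 1 ≤ (W H y (i + 2)).ncard + (W H y (i + 1)).ncard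
    omega

end

theorem result (H : Subgroup (FreeGroup (Fin 2))) [H.FiniteIndex] (y : FreeGroup (Fin 2))
    (i : ℕ) (hi : H.index ≤ i) : edges H y i = ∅ := by
  by_contra hne
  obtain ⟨⟨t, g⟩, ht⟩ := Set.nonempty_iff_ne_empty.2 hne
  rw [edges_eq] at ht
  have hns : ¬ W H y (i + 2) ⊆ W H y i := fun hc => ht.2 (hc (step' y ht.1 g))
  have h1 := count y i hns
  have h2 : (W H y i).ncard < (W H y (i + 2)).ncard :=
    Set.ncard_lt_ncard ⟨mono y i, hns⟩
  have h3 : ∀ j, (W H y j).ncard ≤ H.index := fun j => by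
    have := Set.ncard_le_card (W H y j)
    exact this
  have := h3 (i + 1)
  have := h3 (i + 2)
  omega

end Pool.Agent.Results.MP_f02465_al.StepsBound
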